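import Pool.Agent.Helper72.MK.GoalsT

/-!
Packet MK-AVG of helper72: averaging logarithms over the 16 points of a quaternion group.
-/

open MeasureTheory Set Filter Topology
open scoped ENNReal Quaternion

noncomputable section

namespace Pool.Agent.Helper69.MK

open Pool.Agent.Helper72.MK

theorem norm_one_iff (q : ℍ[ℝ]) : ‖q‖ = 1 ↔ q.re ^ 2 + q.imI ^ 2 + q.imJ ^ 2 + q.imK ^ 2 = 1 := by
  have h1 := Quaternion.normSq_eq_norm_mul_self q
  rw [Quaternion.normSq_def'] at h1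
  constructor
  · intro h
    rw [h1, h, one_mul]
  · intro h
    rw [h] at h1
    have h2 : ‖q‖ ^ 2 = 1 := by rw [sq]; exact h1.symm
    have h3 : 0 ≤ ‖q‖ := norm_nonneg q
    nlinarith

theorem norm_qi : ‖qi‖ = 1 := by
  rw [norm_one_iff]
  simp [qi]

theorem norm_qj : ‖qj‖ = 1 := by
  rw [norm_one_iff]
  simp [qj]

theorem inv_sqrt_two_sq : (√2)⁻¹ * (√2)⁻¹ = (1 / 2 : ℝ) := by
  rw [← mul_inv, Real.mul_self_sqrt (by norm_num)]
  norm_num

theorem norm_om : ‖om‖ = 1 := by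
  rw [norm_one_iff]
  have h := inv_sqrt_two_sq
  simp only [om]
  nlinarith

theorem om_sq : om * om = qk := by
  have h := inv_sqrt_two_sq
  ext <;> simp [om, qk, -mul_inv_rev] <;> nlinarith

theorem qk_qi : qk * qi = qj := by
  ext <;> simp [qk, qi, qj]

theorem qk_sq : qk * qk = -1 := by
  ext <;> simp [qk]

theorem qi_sq : qi * qi = -1 := by
  ext <;> simp [qi]

theorem om4 : om ^ 4 = -1 := by
  have : om ^ 4 = (om * om) * (om * om) := by
    simp only [pow_succ, pow_zero, one_mul, mul_assoc]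
  rw [this, om_sq, qk_sq]

theorem om8 : om ^ 8 = 1 := by
  have : om ^ 8 = om ^ 4 * om ^ 4 := by rw [← pow_add]
  rw [this, om4]
  simp

/-- The relation `ω i ω = i`. -/
theorem om_qi_om : om * qi * om = qi := by
  have h := inv_sqrt_two_sq
  ext <;> simp [om, qi, -mul_inv_rev] <;> nlinarith

theorem qi_om : qi * om = om ^ 7 * qi := by
  have h1 : om ^ 7 * (om * qi * om) = om ^ 7 * qi := by rw [om_qi_om]
  rw [← h1]
  have : om ^ 7 * (om * qi * om) = om ^ 8 * (qi * om) := by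
    have h8 : om ^ 8 = om ^ 7 * om := pow_succ om 7
    rw [h8]
    simp only [mul_assoc]
  rw [this, om8, one_mul]

theorem mem_SS {q : ℍ[ℝ]} : q ∈ SS ℍ[ℝ] ↔ ‖q‖ = 1 := Iff.rfl

theorem mul_mem {g q : ℍ[ℝ]} (hg : g ∈ SS ℍ[ℝ]) (hq : ‖q‖ = 1) : g * q ∈ SS ℍ[ℝ] := by
  rw [mem_SS, norm_mul, mem_SS.1 hg, hq, one_mul]

theorem pow_mem (a : ℕ) : om ^ a ∈ SS ℍ[ℝ] := by
  rw [mem_SS, norm_pow, norm_om, one_pow]

/-- The sum over the 16 points. -/
def AV (θ : ℍ[ℝ] → ℂ) : ℂ := ∑ a ∈ Finset.range 8, (θ (om ^ a) + θ (om ^ a * qi))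

theorem om_pow_mod (a : ℕ) : om ^ a = om ^ (a % 8) := pow_eq_pow_mod a om8

theorem AV_om (θ : ℍ[ℝ] → ℂ) : AV (fun g => θ (g * om)) = AV θ := by
  have h1 : ∀ a : ℕ, om ^ a * om = om ^ ((a + 1) % 8) := fun a => by
    rw [← pow_succ]
    exact om_pow_mod _
  have h2 : ∀ a : ℕ, om ^ a * qi * om = om ^ ((a + 7) % 8) * qi := fun a => by
    rw [mul_assoc, qi_om, ← mul_assoc, ← pow_add, om_pow_mod (a + 7)]
  unfold AV
  simp only [h1, h2, Finset.sum_range_succ, Finset.sum_range_zero]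
  norm_num
  ring

theorem AV_qi (θ : ℍ[ℝ] → ℂ) : AV (fun g => θ (g * qi)) = AV θ := by
  have h2 : ∀ a : ℕ, om ^ a * qi * qi = om ^ ((a + 4) % 8) := fun a => by
    rw [mul_assoc, qi_sq, ← om4, ← pow_add, om_pow_mod (a + 4)]
  unfold AV
  simp only [h2, Finset.sum_range_succ, Finset.sum_range_zero]
  norm_num
  ring

theorem AV_qj (θ : ℍ[ℝ] → ℂ) : AV (fun g => θ (g * qj)) = AV θ := by
  have h : (fun g => θ (g * qj)) = fun g => (fun g' => (fun g'' => θ (g'' * qi)) (g' * om)) (g * om) := by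
    funext g
    simp only
    rw [mul_assoc g om om, om_sq, mul_assoc, qk_qi]
  rw [h, AV_om (fun g' => (fun g'' => θ (g'' * qi)) (g' * om)), AV_om (fun g'' => θ (g'' * qi)), AV_qi]

theorem AV_const (F : ℍ[ℝ] → ℂ) (c : ℂ) (h : ∀ g ∈ SS ℍ[ℝ], F g = c) : AV F = 16 * c := by
  unfold AV
  have : ∀ a ∈ Finset.range 8, F (om ^ a) + F (om ^ a * qi) = c + c := by
    intro a _
    rw [h _ (pow_mem a), h _ (mul_mem (pow_mem a) norm_qi)]
  rw [Finset.sum_congr rfl this]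
  simp
  ring

theorem AV_add (F G : ℍ[ℝ] → ℂ) : AV (fun g => F g + G g) = AV F + AV G := by
  unfold AV
  rw [← Finset.sum_add_distrib]
  refine Finset.sum_congr rfl fun a _ => ?_
  ring

theorem AV_sub (F G : ℍ[ℝ] → ℂ) : AV (fun g => F g - G g) = AV F - AV G := by
  unfold AV
  rw [← Finset.sum_sub_distrib]
  refine Finset.sum_congr rfl fun a _ => ?_
  ring

theorem SS_preconnected : IsPreconnected (SS ℍ[ℝ]) := by
  have h : SS ℍ[ℝ] = Metric.sphere (0 : ℍ[ℝ]) 1 := by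
    ext x
    simp [SS]
  rw [h]
  apply isPreconnected_sphere
  rw [← Module.finrank_eq_rank, Quaternion.finrank_eq_four]
  norm_num

theorem int_const (F : ℍ[ℝ] → ℂ) (hF : ContinuousOn F (SS ℍ[ℝ]))
    (h1 : ∀ g ∈ SS ℍ[ℝ], Complex.exp (F g) = 1) :
    ∃ m : ℤ, ∀ g ∈ SS ℍ[ℝ], F g = m * (2 * Real.pi * Complex.I) := by
  have hne : (2 * Real.pi * Complex.I : ℂ) ≠ 0 := Complex.two_pi_I_ne_zero
  have h2 : ∀ g ∈ SS ℍ[ℝ], ∃ n : ℤ, F g = n * (2 * Real.pi * Complex.I) := fun g hg =>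
    Complex.exp_eq_one_iff.1 (h1 g hg)
  set R : ℍ[ℝ] → ℝ := fun g => (F g / (2 * Real.pi * Complex.I)).re with hR
  have hRc : ContinuousOn R (SS ℍ[ℝ]) :=
    Complex.continuous_re.comp_continuousOn (hF.div_const _)
  have hRn : ∀ g ∈ SS ℍ[ℝ], ∀ n : ℤ, F g = n * (2 * Real.pi * Complex.I) → R g = n := by
    intro g _ n hn
    simp only [hR, hn]
    rw [mul_div_assoc, div_self hne, mul_one]
    simp
  have hpre := SS_preconnected.image R hRc
  have h1m : (1 : ℍ[ℝ]) ∈ SS ℍ[ℝ] := by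
    rw [mem_SS]
    exact norm_one
  obtain ⟨m, hm⟩ := h2 1 h1m
  refine ⟨m, fun g hg => ?_⟩
  obtain ⟨n, hn⟩ := h2 g hg
  have e1 := hRn 1 h1m m hm
  have e2 := hRn g hg n hn
  suffices hnm : n = m by rw [hn, hnm]
  by_contra hne'
  -- a non-integer value in between
  have key : ∀ p q : ℤ, p < q → (p : ℝ) ∈ R '' SS ℍ[ℝ] → (q : ℝ) ∈ R '' SS ℍ[ℝ] → False := by
    intro p q hpq hp hq
    have hmid : ((p : ℝ) + 1 / 2) ∈ R '' SS ℍ[ℝ] := by
      apply hpre.Icc_subset hp hq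
      constructor
      · linarith
      · have : (p : ℝ) + 1 ≤ q := by exact_mod_cast hpq
        linarith
    obtain ⟨y, hy, hy'⟩ := hmid
    obtain ⟨r, hr⟩ := h2 y hy
    have e3 := hRn y hy r hr
    rw [e3] at hy'
    have : (2 * r : ℤ) = 2 * p + 1 := by
      have : (2 * r : ℝ) = 2 * p + 1 := by linarith
      exact_mod_cast this
    omega
  have i1 : (m : ℝ) ∈ R '' SS ℍ[ℝ] := ⟨1, h1m, e1⟩
  have i2 : (n : ℝ) ∈ R '' SS ℍ[ℝ] := ⟨g, hg, e2⟩
  rcases lt_or_gt_of_ne hne' with h | h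
  · exact key n m h i2 i1
  · exact key m n h i1 i2

theorem comp_cont {θ : ℍ[ℝ] → ℂ} (hθ : ContinuousOn θ (SS ℍ[ℝ])) {q : ℍ[ℝ]} (hq : ‖q‖ = 1) :
    ContinuousOn (fun g => θ (g * q)) (SS ℍ[ℝ]) :=
  hθ.comp (f := fun g => g * q) (continuous_id.mul continuous_const).continuousOn
    (fun _ hg => mul_mem hg hq)

/-- **Packet MK-AVG.** -/
theorem avg (hlog : LOG2Stmt) : AVGStmt := by
  intro f1 f2 f3 f4 f5 d ⟨c1, c2, c3, c4, c5, cd⟩ hne heq
  have hrank : 3 ≤ Module.finrank ℝ ℍ[ℝ] := by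
    rw [Quaternion.finrank_eq_four]
    norm_num
  obtain ⟨θ1, t1, e1⟩ := hlog ℍ[ℝ] hrank f1 c1 (fun g hg => (hne g hg).1)
  obtain ⟨θ2, t2, e2⟩ := hlog ℍ[ℝ] hrank f2 c2 (fun g hg => (hne g hg).2.1)
  obtain ⟨θ3, t3, e3⟩ := hlog ℍ[ℝ] hrank f3 c3 (fun g hg => (hne g hg).2.2.1)
  obtain ⟨θ4, t4, e4⟩ := hlog ℍ[ℝ] hrank f4 c4 (fun g hg => (hne g hg).2.2.2.1)
  obtain ⟨θ5, t5, e5⟩ := hlog ℍ[ℝ] hrank f5 c5 (fun g hg => (hne g hg).2.2.2.2.1)
  obtain ⟨φ, tφ, eφ⟩ := hlog ℍ[ℝ] hrank d cd (fun g hg => (hne g hg).2.2.2.2.2)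
  obtain ⟨m1, hm1⟩ := int_const (fun g => θ1 g + θ2 (g * qi) - θ4 g)
    ((t1.add (comp_cont t2 norm_qi)).sub t4) (fun g hg => by
      rw [Complex.exp_sub, Complex.exp_add, e1 g hg, e2 _ (mul_mem hg norm_qi), e4 g hg,
        (heq g hg).1]
      exact div_self (hne g hg).2.2.2.1)
  obtain ⟨m2, hm2⟩ := int_const (fun g => θ2 g + θ1 (g * qj) - θ5 g)
    ((t2.add (comp_cont t1 norm_qj)).sub t5) (fun g hg => by
      rw [Complex.exp_sub, Complex.exp_add, e2 g hg, e1 _ (mul_mem hg norm_qj), e5 g hg,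
        (heq g hg).2.1]
      exact div_self (hne g hg).2.2.2.2.1)
  obtain ⟨m3, hm3⟩ := int_const (fun g => θ1 g + θ3 (g * qi) - θ5 g)
    ((t1.add (comp_cont t3 norm_qi)).sub t5) (fun g hg => by
      rw [Complex.exp_sub, Complex.exp_add, e1 g hg, e3 _ (mul_mem hg norm_qi), e5 g hg,
        (heq g hg).2.2.1]
      exact div_self (hne g hg).2.2.2.2.1)
  obtain ⟨m4, hm4⟩ := int_const (fun g => φ (g * om) - φ g - θ4 g - Real.pi * Complex.I)
    ((((comp_cont tφ norm_om).sub tφ).sub t4).sub continuousOn_const) (fun g hg => by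
      have hd := (hne g hg).2.2.2.2.2
      have h4 := (hne g hg).2.2.2.1
      rw [Complex.exp_sub, Complex.exp_sub, Complex.exp_sub, eφ _ (mul_mem hg norm_om), eφ g hg,
        e4 g hg, (heq g hg).2.2.2.1, Complex.exp_pi_mul_I]
      field_simp)
  obtain ⟨m5, hm5⟩ := int_const (fun g => φ (g * qi) - φ g - θ1 g - θ3 (g * om))
    ((((comp_cont tφ norm_qi).sub tφ).sub t1).sub (comp_cont t3 norm_om)) (fun g hg => by
      have hd := (hne g hg).2.2.2.2.2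
      have h1 := (hne g hg).1
      have h3 := (hne _ (mul_mem hg norm_om)).2.2.1
      rw [Complex.exp_sub, Complex.exp_sub, Complex.exp_sub, eφ _ (mul_mem hg norm_qi), eφ g hg,
        e1 g hg, e3 _ (mul_mem hg norm_om), (heq g hg).2.2.2.2]
      field_simp)
  have a1 := AV_const _ _ hm1
  have a2 := AV_const _ _ hm2
  have a3 := AV_const _ _ hm3
  have a4 := AV_const _ _ hm4
  have a5 := AV_const _ _ hm5
  rw [AV_sub (fun g => θ1 g + θ2 (g * qi)) θ4, AV_add θ1 (fun g => θ2 (g * qi)), AV_qi] at a1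
  rw [AV_sub (fun g => θ2 g + θ1 (g * qj)) θ5, AV_add θ2 (fun g => θ1 (g * qj)), AV_qj] at a2
  rw [AV_sub (fun g => θ1 g + θ3 (g * qi)) θ5, AV_add θ1 (fun g => θ3 (g * qi)), AV_qi] at a3
  rw [AV_sub (fun g => φ (g * om) - φ g - θ4 g) (fun _ => Real.pi * Complex.I),
    AV_sub (fun g => φ (g * om) - φ g) θ4, AV_sub (fun g => φ (g * om)) φ, AV_om,
    AV_const (fun _ => (Real.pi * Complex.I : ℂ)) (Real.pi * Complex.I) (fun _ _ => rfl)] at a4
  rw [AV_sub (fun g => φ (g * qi) - φ g - θ1 g) (fun g => θ3 (g * om)),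
    AV_sub (fun g => φ (g * qi) - φ g) θ1, AV_sub (fun g => φ (g * qi)) φ, AV_qi, AV_om] at a5
  have hfin : ((1 + 2 * m4 : ℤ) : ℂ) * (Real.pi * Complex.I) =
      ((2 * (m1 - m2 + m3 + m5) : ℤ) : ℂ) * (Real.pi * Complex.I) := by
    push_cast
    linear_combination (-1 / 16 : ℂ) * a4 + (1 / 16 : ℂ) * (a1 - a2 + a3 + a5)
  have hpi : (Real.pi * Complex.I : ℂ) ≠ 0 :=
    mul_ne_zero (by exact_mod_cast Real.pi_ne_zero) Complex.I_ne_zero
  have hint := mul_right_cancel₀ hpi hfin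
  have hint' : (1 + 2 * m4 : ℤ) = 2 * (m1 - m2 + m3 + m5) := by exact_mod_cast hint
  omega

end Pool.Agent.Helper69.MK
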